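import Mathlib

/-!
# MP_b60f05_co: a binary generalized pseudostandard word fixed by a primitive morphism but by
no `φ_k`

The fixed point of `φ_1 ∘ φ_2` starting with `0` is `u(01^ω, R(ERERR)^ω)`; it is aperiodic, not
standard Sturmian, and it is fixed by none of the morphisms `φ_k`.
-/

set_option autoImplicit false

namespace Pool.Agent.Results.MP_b60f05_co.ComposedMorphism

/-! ### Definitions (letters: `false = 0`, `true = 1`) -/

/-- The two antimorphisms. -/
inductive Anti
  | R
  | E
  deriving DecidableEq

/-- The action of the antimorphisms on finite words: `R` is reversal, `E` is reversal composed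
with the exchange of letters. -/
def Anti.app : Anti → List Bool → List Bool
  | Anti.R, w => w.reverse
  | Anti.E, w => (w.map not).reverse

/-- `w` is a `ϑ`-palindrome. -/
def IsPal (t : Anti) (w : List Bool) : Prop := t.app w = w

/-- `p = w^ϑ`: `p` is the shortest `ϑ`-palindrome having `w` as a prefix. -/
def IsClosure (t : Anti) (w p : List Bool) : Prop :=
  IsPal t p ∧ w <+: p ∧ ∀ q, IsPal t q → w <+: q → p.length ≤ q.length

/-- The prefix of length `n` of an infinite word. -/
def pref (u : ℕ → Bool) (n : ℕ) : List Bool := (List.range n).map u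

/-- `u = u(Δ, Θ)`: every `w_n` is a prefix of `u`, where `w_0 = ε` and
`w_{n+1} = (w_n δ_{n+1})^{ϑ_{n+1}}` (the sequences are indexed from `0` here). -/
def IsGPS (D : ℕ → Bool) (T : ℕ → Anti) (u : ℕ → Bool) : Prop :=
  ∃ w : ℕ → List Bool, w 0 = [] ∧ (∀ n, IsClosure (T n) (w n ++ [D n]) (w (n + 1))) ∧
    ∀ n, w n = pref u (w n).length

/-- `u` is aperiodic: not of the form `w v^ω`. -/
def Aperiodic (u : ℕ → Bool) : Prop := ¬ ∃ m p : ℕ, 0 < p ∧ ∀ n, m ≤ n → u (n + p) = u n

/-- `u` is a standard Sturmian word: aperiodic and of the form `u(Δ, R^ω)`. -/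
def StandardSturmian (u : ℕ → Bool) : Prop :=
  Aperiodic u ∧ ∃ D : ℕ → Bool, IsGPS D (fun _ => Anti.R) u

/-- A morphism, given by the images of the letters, acts on finite words. -/
def act (f : Bool → List Bool) (w : List Bool) : List Bool := w.flatMap f

/-- `f(u) = u` for an infinite word `u`: the images of the prefixes of `u` are prefixes of `u`
and their lengths are unbounded. -/
def FixedBy (f : Bool → List Bool) (u : ℕ → Bool) : Prop :=
  (∀ n, act f (pref u n) = pref u (act f (pref u n)).length) ∧
    ∀ m, ∃ n, m ≤ (act f (pref u n)).length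

/-- `f` is primitive. -/
def Primitive (f : Bool → List Bool) : Prop :=
  ∃ n : ℕ, 1 ≤ n ∧ ∀ a b : Bool, b ∈ (act f)^[n] [a]

/-- The morphisms `φ_k : 0 ↦ 0(110)^k, 1 ↦ 1(001)^k`. -/
def phi (k : ℕ) : Bool → List Bool
  | false => false :: (List.replicate k [true, true, false]).flatten
  | true => true :: (List.replicate k [false, false, true]).flatten

/-! ### The word -/

/-- pattern of `φ_1` -/
def p1 (r : ℕ) : Bool := r = 1 || r = 2

/-- pattern of `φ_2` -/
def p2 (r : ℕ) : Bool := r = 1 || r = 2 || r = 4 || r = 5

/-- the two words with fuel -/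
def Uf : ℕ → Bool → ℕ → Bool
  | 0, _, _ => false
  | f + 1, true, n => xor (p1 (n % 4)) (Uf f false (n / 4))
  | f + 1, false, n => xor (p2 (n % 7)) (Uf f true (n / 7))

lemma Uf_zero (f : ℕ) : ∀ b, Uf f b 0 = false := by
  induction f with
  | zero => intro b; rfl
  | succ f ih =>
    intro b
    cases b
    · show xor (p2 (0 % 7)) (Uf f true (0 / 7)) = false
      simp [ih, p2]
    · show xor (p1 (0 % 4)) (Uf f false (0 / 4)) = false
      simp [ih, p1]

lemma Uf_stable : ∀ n f g : ℕ, n ≤ f → n ≤ g → ∀ b, Uf f b n = Uf g b n := by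
  intro n
  induction n using Nat.strong_induction_on with
  | _ n ih =>
    intro f g hf hg b
    rcases Nat.eq_zero_or_pos n with h0 | h0
    · subst h0
      rw [Uf_zero, Uf_zero]
    · obtain ⟨f', rfl⟩ : ∃ f', f = f' + 1 := ⟨f - 1, by omega⟩
      obtain ⟨g', rfl⟩ : ∃ g', g = g' + 1 := ⟨g - 1, by omega⟩
      cases b
      · show xor (p2 (n % 7)) (Uf f' true (n / 7)) = xor (p2 (n % 7)) (Uf g' true (n / 7))
        rw [ih (n / 7) (by omega) f' g' (by omega) (by omega)]
      · show xor (p1 (n % 4)) (Uf f' false (n / 4)) = xor (p1 (n % 4)) (Uf g' false (n / 4))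
        rw [ih (n / 4) (by omega) f' g' (by omega) (by omega)]

/-- `U true` is the fixed point of `φ_1 φ_2`, `U false` is the fixed point of `φ_2 φ_1`. -/
def U (b : Bool) (n : ℕ) : Bool := Uf n b n

lemma U_true (j r : ℕ) (hr : r < 4) : U true (4 * j + r) = xor (p1 r) (U false j) := by
  have h1 : U true (4 * j + r) = Uf (4 * j + r + 1) true (4 * j + r) :=
    Uf_stable _ _ _ le_rfl (by omega) _
  rw [h1]
  show xor (p1 ((4 * j + r) % 4)) (Uf (4 * j + r) false ((4 * j + r) / 4)) = _
  have h2 : (4 * j + r) % 4 = r := by omega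
  have h3 : (4 * j + r) / 4 = j := by omega
  rw [h2, h3]
  congr 1
  exact Uf_stable _ _ _ (by omega) le_rfl _

lemma U_false (j r : ℕ) (hr : r < 7) : U false (7 * j + r) = xor (p2 r) (U true j) := by
  have h1 : U false (7 * j + r) = Uf (7 * j + r + 1) false (7 * j + r) :=
    Uf_stable _ _ _ le_rfl (by omega) _
  rw [h1]
  show xor (p2 ((7 * j + r) % 7)) (Uf (7 * j + r) true ((7 * j + r) / 7)) = _
  have h2 : (7 * j + r) % 7 = r := by omega
  have h3 : (7 * j + r) / 7 = j := by omega
  rw [h2, h3]
  congr 1
  exact Uf_stable _ _ _ (by omega) le_rfl _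

/-! ### Closure steps -/

/-- letter action -/
def Anti.c : Anti → Bool → Bool
  | Anti.R, x => x
  | Anti.E, x => !x

/-- `u[a..b]` is a `ϑ`-palindrome -/
def Sym (t : Anti) (u : ℕ → Bool) (a b : ℕ) : Prop :=
  ∀ i, a ≤ i → i ≤ b → u i = t.c (u (a + b - i))

/-- `u[0..L-1]` is the `ϑ`-closure of `u[0..N]`, and `u_N = 1` -/
structure Step (u : ℕ → Bool) (N L : ℕ) (t : Anti) : Prop where
  one : u N = true
  lt : N < L
  le : L ≤ 2 * N
  sym : Sym t u 0 (L - 1)
  min : ∀ a, a < L - 1 - N → ¬ Sym t u a N

lemma pref_length (u : ℕ → Bool) (n : ℕ) : (pref u n).length = n := by simp [pref]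

lemma pref_getElem (u : ℕ → Bool) (n i : ℕ) (h : i < (pref u n).length) :
    (pref u n)[i] = u i := by
  simp [pref]

lemma app_length (t : Anti) (w : List Bool) : (t.app w).length = w.length := by
  cases t <;> simp [Anti.app]

lemma app_getElem (t : Anti) (w : List Bool) (i : ℕ) (h : i < (t.app w).length)
    (h' : w.length - 1 - i < w.length) :
    (t.app w)[i] = t.c (w[w.length - 1 - i]) := by
  cases t <;> simp [Anti.app, Anti.c]

lemma pref_succ (u : ℕ → Bool) (n : ℕ) : pref u (n + 1) = pref u n ++ [u n] := by
  simp [pref, List.range_succ]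

lemma pref_prefix (u : ℕ → Bool) {m n : ℕ} (h : m ≤ n) : pref u m <+: pref u n := by
  obtain ⟨k, rfl⟩ := Nat.exists_eq_add_of_le h
  induction k with
  | zero => exact List.prefix_rfl
  | succ k ih =>
    have := ih (by omega)
    refine this.trans ?_
    rw [← Nat.add_assoc, pref_succ]
    exact List.prefix_append _ _

lemma isPal_pref {t : Anti} {u : ℕ → Bool} {L : ℕ} (h : Sym t u 0 (L - 1)) :
    IsPal t (pref u L) := by
  unfold IsPal
  refine List.ext_getElem (by rw [app_length]) fun i h1 h2 => ?_
  rw [pref_length] at h2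
  rw [app_getElem t _ i h1 (by rw [pref_length]; omega), pref_getElem, pref_getElem]
  rw [pref_length]
  have := h i (by omega) (by omega)
  rw [this]
  congr 2
  omega

lemma closure_of_step {u : ℕ → Bool} {N L : ℕ} {t : Anti} (h : Step u N L t) :
    IsClosure t (pref u N ++ [true]) (pref u L) := by
  have h1 := h.one
  have hlt := h.lt
  refine ⟨isPal_pref h.sym, ?_, fun q hq hpq => ?_⟩
  · rw [← h1, ← pref_succ]
    exact pref_prefix u hlt
  · rw [← h1, ← pref_succ] at hpq
    rw [pref_length]
    by_contra hcon
    push Not at hcon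
    have hlen := hpq.length_le
    rw [pref_length] at hlen
    refine h.min (q.length - 1 - N) (by omega) fun i hi1 hi2 => ?_
    have hget : ∀ j, (hj : j ≤ N) → ∀ h' : j < q.length, q[j] = u j := by
      intro j hj h'
      have := hpq.getElem (i := j) (by rw [pref_length]; omega)
      rw [← this, pref_getElem]
    have e1 : q[i]'(by omega) = t.c (q[q.length - 1 - i]'(by omega)) := by
      have h3 : ∀ (w : List Bool) (hw : w = q) (hi : i < w.length), w[i] = q[i]'(by omega) := by
        intro w hw hi
        subst hw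
        rfl
      have h4 := h3 (t.app q) hq (by rw [app_length]; omega)
      rw [← h4]
      exact app_getElem t q i _ _
    rw [hget i hi2, hget (q.length - 1 - i) (by omega)] at e1
    rw [e1]
    congr 2
    omega

/-! ### Transfer through `φ_1` and `φ_2` -/

lemma sym_eq {t : Anti} {u : ℕ → Bool} {a b : ℕ} (h : Sym t u a b) (i : ℕ) (h1 : a ≤ i)
    (h2 : i + 1 ≤ b) : (u i = u (i + 1)) ↔ (u (a + b - i - 1) = u (a + b - i)) := by
  have e1 := h i h1 (by omega)
  have e2 := h (i + 1) (by omega) h2
  have e3 : a + b - (i + 1) = a + b - i - 1 := by omega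
  rw [e3] at e2
  rw [e1, e2]
  cases t
  · simp only [Anti.c]
    exact eq_comm
  · simp only [Anti.c]
    constructor
    · intro h
      exact (Bool.not_inj h).symm
    · intro h
      rw [h]

/-- no three consecutive equal letters -/
def NoTriple (v : ℕ → Bool) : Prop := ∀ i, ¬ (v i = v (i + 1) ∧ v (i + 1) = v (i + 2))

/-- a step with `L = 2N` forces the letter before position `N` -/
lemma Step.last {v : ℕ → Bool} {N L : ℕ} {t : Anti} (h : Step v N L t) (hL : L = 2 * N) :
    v (N - 1) = t.c true := by
  have h1 := h.one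
  have h2 := h.lt
  have := h.sym (N - 1) (by omega) (by omega)
  have e : 0 + (L - 1) - (N - 1) = N := by omega
  rw [e, h1] at this
  exact this

lemma transfer4 {u v : ℕ → Bool} (hu : ∀ j r, r < 4 → u (4 * j + r) = xor (p1 r) (v j))
    (htr : NoTriple v) {N L : ℕ} {t : Anti} (h : Step v N L t) :
    Step u (4 * N) (4 * L) t := by
  have hone := h.one
  have hlt := h.lt
  have hle := h.le
  have e0 : ∀ j, u (4 * j) = v j := fun j => by
    have := hu j 0 (by omega); simpa [p1] using this
  have e1 : ∀ j, u (4 * j + 1) = !(v j) := fun j => by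
    have := hu j 1 (by omega); simpa [p1] using this
  have e2 : ∀ j, u (4 * j + 2) = !(v j) := fun j => by
    have := hu j 2 (by omega); simpa [p1] using this
  have e3 : ∀ j, u (4 * j + 3) = v j := fun j => by
    have := hu j 3 (by omega); simpa [p1] using this
  refine ⟨by rw [e0]; exact hone, by omega, by omega, ?_, ?_⟩
  · intro i _ hi
    obtain ⟨j, r, hr, rfl⟩ : ∃ j r, r < 4 ∧ i = 4 * j + r := ⟨i / 4, i % 4, by omega, by omega⟩
    have hs := h.sym j (by omega) (by omega)
    have key : 0 + (4 * L - 1) - (4 * j + r) = 4 * (0 + (L - 1) - j) + (3 - r) := by omega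
    rw [key, hu j r hr, hu _ (3 - r) (by omega), hs]
    have hp : p1 (3 - r) = p1 r := by
      interval_cases r <;> rfl
    rw [hp]
    cases t <;> simp [Anti.c]
  · intro a ha hsym
    obtain ⟨a', r, hr, rfl⟩ : ∃ a' r, r < 4 ∧ a = 4 * a' + r := ⟨a / 4, a % 4, by omega, by omega⟩
    by_cases hlast : a' + 1 = N
    · -- last block
      have hL : L = 2 * N := by omega
      have hv := h.last hL
      have ha' : N - 1 = a' := by omega
      rw [ha'] at hv
      have hN : 4 * N = 4 * a' + 4 := by omega
      have hone' : u (4 * a' + 4) = true := by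
        rw [← hN, e0]; exact hone
      have hr3 : r < 3 := by omega
      rw [hN] at hsym
      interval_cases r
      · cases t
        · have := hsym (4 * a' + 1) (by omega) (by omega)
          have e : 4 * a' + 0 + (4 * a' + 4) - (4 * a' + 1) = 4 * a' + 3 := by omega
          rw [e, e1, e3, hv] at this
          simp [Anti.c] at this
        · have := hsym (4 * a' + 2) (by omega) (by omega)
          have e : 4 * a' + 0 + (4 * a' + 4) - (4 * a' + 2) = 4 * a' + 2 := by omega
          rw [e] at this
          simp [Anti.c] at this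
      · have := hsym (4 * a' + 1) (by omega) (by omega)
        have e : 4 * a' + 1 + (4 * a' + 4) - (4 * a' + 1) = 4 * a' + 4 := by omega
        rw [e, e1, hv, hone'] at this
        cases t <;> simp [Anti.c] at this
      · have := hsym (4 * a' + 2) (by omega) (by omega)
        have e : 4 * a' + 2 + (4 * a' + 4) - (4 * a' + 2) = 4 * a' + 4 := by omega
        rw [e, e2, hv, hone'] at this
        cases t <;> simp [Anti.c] at this
    · have hlt' : a' + 1 < N := by omega
      obtain ⟨M, rfl⟩ : ∃ M, N = M + 2 := ⟨N - 2, by omega⟩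
      interval_cases r
      · have := sym_eq hsym (4 * a' + 1) (by omega) (by omega)
        have f1 : 4 * a' + 0 + 4 * (M + 2) - (4 * a' + 1) - 1 = 4 * (M + 1) + 2 := by omega
        have f2 : 4 * a' + 0 + 4 * (M + 2) - (4 * a' + 1) = 4 * (M + 1) + 3 := by omega
        rw [f1, f2, e1, e2, e2, e3] at this
        simp at this
      · have t1 := sym_eq hsym (4 * a' + 1) (by omega) (by omega)
        have f1 : 4 * a' + 1 + 4 * (M + 2) - (4 * a' + 1) - 1 = 4 * (M + 1) + 3 := by omega
        have f2 : 4 * a' + 1 + 4 * (M + 2) - (4 * a' + 1) = 4 * (M + 2) := by omega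
        rw [f1, f2, e1, e2, e3, e0] at t1
        have t2 := sym_eq hsym (4 * (a' + 1) + 1) (by omega) (by omega)
        have f3 : 4 * a' + 1 + 4 * (M + 2) - (4 * (a' + 1) + 1) - 1 = 4 * M + 3 := by omega
        have f4 : 4 * a' + 1 + 4 * (M + 2) - (4 * (a' + 1) + 1) = 4 * (M + 1) := by omega
        rw [f3, f4, e1, e2, e3, e0] at t2
        exact htr M ⟨t2.1 rfl, t1.1 rfl⟩
      · have := sym_eq hsym (4 * (a' + 1)) (by omega) (by omega)
        have f1 : 4 * a' + 2 + 4 * (M + 2) - 4 * (a' + 1) - 1 = 4 * (M + 1) + 1 := by omega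
        have f2 : 4 * a' + 2 + 4 * (M + 2) - 4 * (a' + 1) = 4 * (M + 1) + 2 := by omega
        rw [f1, f2, e0, e1, e1, e2] at this
        simp at this
      · -- synchronised case
        refine h.min a' (by omega) fun j hj1 hj2 => ?_
        rcases Nat.eq_or_lt_of_le hj1 with hj | hj
        · have := hsym (4 * a' + 3) (by omega) (by omega)
          have f1 : 4 * a' + 3 + 4 * (M + 2) - (4 * a' + 3) = 4 * (M + 2) := by omega
          rw [f1, e3, e0] at this
          rw [← hj]
          have f2 : a' + (M + 2) - a' = M + 2 := by omega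
          rw [f2]
          exact this
        · have := hsym (4 * j) (by omega) (by omega)
          have f1 : 4 * a' + 3 + 4 * (M + 2) - 4 * j = 4 * (a' + (M + 2) - j) + 3 := by omega
          rw [f1, e0, e3] at this
          exact this

lemma transfer7 {u v : ℕ → Bool} (hu : ∀ j r, r < 7 → u (7 * j + r) = xor (p2 r) (v j))
    {N L : ℕ} {t : Anti} (h : Step v N L t) :
    Step u (7 * N) (7 * L) t := by
  have hone := h.one
  have hlt := h.lt
  have hle := h.le
  have e0 : ∀ j, u (7 * j) = v j := fun j => by
    have := hu j 0 (by omega); simpa [p2] using this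
  have e1 : ∀ j, u (7 * j + 1) = !(v j) := fun j => by
    have := hu j 1 (by omega); simpa [p2] using this
  have e2 : ∀ j, u (7 * j + 2) = !(v j) := fun j => by
    have := hu j 2 (by omega); simpa [p2] using this
  have e3 : ∀ j, u (7 * j + 3) = v j := fun j => by
    have := hu j 3 (by omega); simpa [p2] using this
  have e4 : ∀ j, u (7 * j + 4) = !(v j) := fun j => by
    have := hu j 4 (by omega); simpa [p2] using this
  have e5 : ∀ j, u (7 * j + 5) = !(v j) := fun j => by
    have := hu j 5 (by omega); simpa [p2] using this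
  have e6 : ∀ j, u (7 * j + 6) = v j := fun j => by
    have := hu j 6 (by omega); simpa [p2] using this
  refine ⟨by rw [e0]; exact hone, by omega, by omega, ?_, ?_⟩
  · intro i _ hi
    obtain ⟨j, r, hr, rfl⟩ : ∃ j r, r < 7 ∧ i = 7 * j + r := ⟨i / 7, i % 7, by omega, by omega⟩
    have hs := h.sym j (by omega) (by omega)
    have key : 0 + (7 * L - 1) - (7 * j + r) = 7 * (0 + (L - 1) - j) + (6 - r) := by omega
    rw [key, hu j r hr, hu _ (6 - r) (by omega), hs]
    have hp : p2 (6 - r) = p2 r := by
      interval_cases r <;> rfl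
    rw [hp]
    cases t <;> simp [Anti.c]
  · intro a ha hsym
    obtain ⟨a', r, hr, rfl⟩ : ∃ a' r, r < 7 ∧ a = 7 * a' + r := ⟨a / 7, a % 7, by omega, by omega⟩
    by_cases hlast : a' + 1 = N
    · -- last block
      have hL : L = 2 * N := by omega
      have hv := h.last hL
      have ha' : N - 1 = a' := by omega
      rw [ha'] at hv
      have hN : 7 * N = 7 * a' + 7 := by omega
      have hone' : u (7 * a' + 7) = true := by
        rw [← hN, e0]; exact hone
      have hr3 : r < 6 := by omega
      rw [hN] at hsym
      interval_cases r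
      · have h1 := hsym (7 * a' + 1) (by omega) (by omega)
        have e : 7 * a' + 0 + (7 * a' + 7) - (7 * a' + 1) = 7 * a' + 6 := by omega
        rw [e, e1, e6, hv] at h1
        have h2 := hsym (7 * a' + 2) (by omega) (by omega)
        have e' : 7 * a' + 0 + (7 * a' + 7) - (7 * a' + 2) = 7 * a' + 5 := by omega
        rw [e', e2, e5, hv] at h2
        cases t <;> simp [Anti.c] at h1 h2
      · have := hsym (7 * a' + 1) (by omega) (by omega)
        have e : 7 * a' + 1 + (7 * a' + 7) - (7 * a' + 1) = 7 * a' + 7 := by omega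
        rw [e, e1, hv, hone'] at this
        cases t <;> simp [Anti.c] at this
      · have := hsym (7 * a' + 2) (by omega) (by omega)
        have e : 7 * a' + 2 + (7 * a' + 7) - (7 * a' + 2) = 7 * a' + 7 := by omega
        rw [e, e2, hv, hone'] at this
        cases t <;> simp [Anti.c] at this
      · cases t
        · have := hsym (7 * a' + 4) (by omega) (by omega)
          have e : 7 * a' + 3 + (7 * a' + 7) - (7 * a' + 4) = 7 * a' + 6 := by omega
          rw [e, e4, e6, hv] at this
          simp [Anti.c] at this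
        · have := hsym (7 * a' + 5) (by omega) (by omega)
          have e : 7 * a' + 3 + (7 * a' + 7) - (7 * a' + 5) = 7 * a' + 5 := by omega
          rw [e] at this
          simp [Anti.c] at this
      · have := hsym (7 * a' + 4) (by omega) (by omega)
        have e : 7 * a' + 4 + (7 * a' + 7) - (7 * a' + 4) = 7 * a' + 7 := by omega
        rw [e, e4, hv, hone'] at this
        cases t <;> simp [Anti.c] at this
      · have := hsym (7 * a' + 5) (by omega) (by omega)
        have e : 7 * a' + 5 + (7 * a' + 7) - (7 * a' + 5) = 7 * a' + 7 := by omega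
        rw [e, e5, hv, hone'] at this
        cases t <;> simp [Anti.c] at this
    · have hlt' : a' + 1 < N := by omega
      obtain ⟨M, rfl⟩ : ∃ M, N = M + 2 := ⟨N - 2, by omega⟩
      interval_cases r
      · have := sym_eq hsym (7 * a' + 1) (by omega) (by omega)
        have f1 : 7 * a' + 0 + 7 * (M + 2) - (7 * a' + 1) - 1 = 7 * (M + 1) + 5 := by omega
        have f2 : 7 * a' + 0 + 7 * (M + 2) - (7 * a' + 1) = 7 * (M + 1) + 6 := by omega
        rw [f1, f2, e1, e2, e5, e6] at this
        simp at this
      · have := sym_eq hsym (7 * a' + 3) (by omega) (by omega)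
        have f1 : 7 * a' + 1 + 7 * (M + 2) - (7 * a' + 3) - 1 = 7 * (M + 1) + 4 := by omega
        have f2 : 7 * a' + 1 + 7 * (M + 2) - (7 * a' + 3) = 7 * (M + 1) + 5 := by omega
        rw [f1, f2, e3, e4, e4, e5] at this
        simp at this
      · have := sym_eq hsym (7 * (a' + 1)) (by omega) (by omega)
        have f1 : 7 * a' + 2 + 7 * (M + 2) - 7 * (a' + 1) - 1 = 7 * (M + 1) + 1 := by omega
        have f2 : 7 * a' + 2 + 7 * (M + 2) - 7 * (a' + 1) = 7 * (M + 1) + 2 := by omega
        rw [f1, f2, e0, e1, e1, e2] at this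
        simp at this
      · have := sym_eq hsym (7 * a' + 4) (by omega) (by omega)
        have f1 : 7 * a' + 3 + 7 * (M + 2) - (7 * a' + 4) - 1 = 7 * (M + 1) + 5 := by omega
        have f2 : 7 * a' + 3 + 7 * (M + 2) - (7 * a' + 4) = 7 * (M + 1) + 6 := by omega
        rw [f1, f2, e4, e5, e5, e6] at this
        simp at this
      · have := sym_eq hsym (7 * (a' + 1) + 1) (by omega) (by omega)
        have f1 : 7 * a' + 4 + 7 * (M + 2) - (7 * (a' + 1) + 1) - 1 = 7 * (M + 1) + 2 := by omega
        have f2 : 7 * a' + 4 + 7 * (M + 2) - (7 * (a' + 1) + 1) = 7 * (M + 1) + 3 := by omega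
        rw [f1, f2, e1, e2, e2, e3] at this
        simp at this
      · have := sym_eq hsym (7 * (a' + 1)) (by omega) (by omega)
        have f1 : 7 * a' + 5 + 7 * (M + 2) - 7 * (a' + 1) - 1 = 7 * (M + 1) + 4 := by omega
        have f2 : 7 * a' + 5 + 7 * (M + 2) - 7 * (a' + 1) = 7 * (M + 1) + 5 := by omega
        rw [f1, f2, e0, e1, e4, e5] at this
        simp at this
      · -- synchronised case
        refine h.min a' (by omega) fun j hj1 hj2 => ?_
        rcases Nat.eq_or_lt_of_le hj1 with hj | hj
        · have := hsym (7 * a' + 6) (by omega) (by omega)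
          have f1 : 7 * a' + 6 + 7 * (M + 2) - (7 * a' + 6) = 7 * (M + 2) := by omega
          rw [f1, e6, e0] at this
          rw [← hj]
          have f2 : a' + (M + 2) - a' = M + 2 := by omega
          rw [f2]
          exact this
        · have := hsym (7 * j) (by omega) (by omega)
          have f1 : 7 * a' + 6 + 7 * (M + 2) - 7 * j = 7 * (a' + (M + 2) - j) + 6 := by omega
          rw [f1, e0, e6] at this
          exact this

/-! ### Lengths and types of all steps -/

/-- `ERERR` -/
def tT : ℕ → Anti
  | 0 => Anti.E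
  | 1 => Anti.R
  | 2 => Anti.E
  | _ => Anti.R

/-- `ERRER` -/
def tF : ℕ → Anti
  | 0 => Anti.E
  | 1 => Anti.R
  | 2 => Anti.R
  | 3 => Anti.E
  | _ => Anti.R

/-- the types of the steps: `ERERR` repeated for `U true`, `ERRER` repeated for `U false` -/
def th (b : Bool) (n : ℕ) : Anti := if b then tT (n % 5) else tF (n % 5)

lemma th_true (n : ℕ) : th true (n + 2) = th false n := by
  have h : n % 5 = 0 ∨ n % 5 = 1 ∨ n % 5 = 2 ∨ n % 5 = 3 ∨ n % 5 = 4 := by omega
  show tT ((n + 2) % 5) = tF (n % 5)
  rcases h with h | h | h | h | h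
  · have : (n + 2) % 5 = 2 := by omega
    rw [h, this]; rfl
  · have : (n + 2) % 5 = 3 := by omega
    rw [h, this]; rfl
  · have : (n + 2) % 5 = 4 := by omega
    rw [h, this]; rfl
  · have : (n + 2) % 5 = 0 := by omega
    rw [h, this]; rfl
  · have : (n + 2) % 5 = 1 := by omega
    rw [h, this]; rfl

lemma th_false (n : ℕ) : th false (n + 3) = th true n := by
  have h : n % 5 = 0 ∨ n % 5 = 1 ∨ n % 5 = 2 ∨ n % 5 = 3 ∨ n % 5 = 4 := by omega
  show tF ((n + 3) % 5) = tT (n % 5)
  rcases h with h | h | h | h | h
  · have : (n + 3) % 5 = 3 := by omega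
    rw [h, this]; rfl
  · have : (n + 3) % 5 = 4 := by omega
    rw [h, this]; rfl
  · have : (n + 3) % 5 = 0 := by omega
    rw [h, this]; rfl
  · have : (n + 3) % 5 = 1 := by omega
    rw [h, this]; rfl
  · have : (n + 3) % 5 = 2 := by omega
    rw [h, this]; rfl

lemma U_small_true : U true 0 = false ∧ U true 1 = true ∧ U true 2 = true ∧ U true 3 = false ∧
    U true 4 = true ∧ U true 5 = false ∧ U true 6 = false := by decide

lemma U_small_false : U false 0 = false ∧ U false 1 = true ∧ U false 2 = true ∧
    U false 3 = false ∧ U false 4 = true ∧ U false 5 = true ∧ U false 6 = false := by decide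

lemma base1 (b : Bool) : Step (U b) 1 2 Anti.E := by
  refine ⟨by cases b <;> decide, by omega, by omega, ?_, ?_⟩
  · intro i _ hi
    have : i = 0 ∨ i = 1 := by omega
    rcases this with rfl | rfl <;> cases b <;> decide
  · intro a ha
    omega

lemma base2 (b : Bool) : Step (U b) 2 4 Anti.R := by
  refine ⟨by cases b <;> decide, by omega, by omega, ?_, ?_⟩
  · intro i _ hi
    have : i = 0 ∨ i = 1 ∨ i = 2 ∨ i = 3 := by omega
    rcases this with rfl | rfl | rfl | rfl <;> cases b <;> decide
  · intro a ha h
    have ha0 : a = 0 := by omega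
    subst ha0
    have := h 0 (by omega) (by omega)
    revert this
    cases b <;> decide

lemma base3 : Step (U false) 4 7 Anti.R := by
  refine ⟨by decide, by omega, by omega, ?_, ?_⟩
  · intro i _ hi
    have : i = 0 ∨ i = 1 ∨ i = 2 ∨ i = 3 ∨ i = 4 ∨ i = 5 ∨ i = 6 := by omega
    rcases this with rfl | rfl | rfl | rfl | rfl | rfl | rfl <;> decide
  · intro a ha h
    have : a = 0 ∨ a = 1 := by omega
    rcases this with rfl | rfl
    · have := h 0 (by omega) (by omega)
      revert this
      decide
    · have := h 2 (by omega) (by omega)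
      revert this
      decide

lemma noTriple : NoTriple (U false) := by
  intro i ⟨h1, h2⟩
  obtain ⟨j, r, hr, rfl⟩ : ∃ j r, r < 7 ∧ i = 7 * j + r := ⟨i / 7, i % 7, by omega, by omega⟩
  interval_cases r
  · rw [U_false j 0 (by omega), U_false j 1 (by omega)] at h1
    simp [p2] at h1
  · have e : 7 * j + 1 + 1 = 7 * j + 2 := by omega
    have e' : 7 * j + 1 + 2 = 7 * j + 3 := by omega
    rw [e, e', U_false j 2 (by omega), U_false j 3 (by omega)] at h2
    simp [p2] at h2
  · have e : 7 * j + 2 + 1 = 7 * j + 3 := by omega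
    rw [e, U_false j 2 (by omega), U_false j 3 (by omega)] at h1
    simp [p2] at h1
  · have e : 7 * j + 3 + 1 = 7 * j + 4 := by omega
    rw [e, U_false j 3 (by omega), U_false j 4 (by omega)] at h1
    simp [p2] at h1
  · have e : 7 * j + 4 + 1 = 7 * j + 5 := by omega
    have e' : 7 * j + 4 + 2 = 7 * j + 6 := by omega
    rw [e, e', U_false j 5 (by omega), U_false j 6 (by omega)] at h2
    simp [p2] at h2
  · have e : 7 * j + 5 + 1 = 7 * j + 6 := by omega
    rw [e, U_false j 5 (by omega), U_false j 6 (by omega)] at h1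
    simp [p2] at h1
  · have e : 7 * j + 6 + 1 = 7 * (j + 1) + 0 := by omega
    have e' : 7 * j + 6 + 2 = 7 * (j + 1) + 1 := by omega
    rw [e, e', U_false (j + 1) 0 (by omega), U_false (j + 1) 1 (by omega)] at h2
    simp [p2] at h2

/-- the lengths of the palindromic prefixes of `U true` (first component) and of `U false` -/
lemma steps : ∃ l : Bool → ℕ → ℕ, (∀ b, l b 0 = 1) ∧
    ∀ n b, Step (U b) (l b n) (l b (n + 1)) (th b n) := by
  -- lengths
  let len : ℕ → ℕ × ℕ := fun n =>
    match n % 5, 28 ^ (n / 5) with
    | 0, q => (q, q)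
    | 1, q => (2 * q, 2 * q)
    | 2, q => (4 * q, 4 * q)
    | 3, q => (8 * q, 7 * q)
    | _, q => (16 * q, 14 * q)
  let l : Bool → ℕ → ℕ := fun b n => if b then (len n).1 else (len n).2
  have lt2 : ∀ n, l true (n + 2) = 4 * l false n := by
    intro n
    have h : n % 5 = 0 ∨ n % 5 = 1 ∨ n % 5 = 2 ∨ n % 5 = 3 ∨ n % 5 = 4 := by omega
    rcases h with h | h | h | h | h
    · have h1 : (n + 2) % 5 = 2 := by omega
      have h2 : (n + 2) / 5 = n / 5 := by omega
      simp only [l, len, h, h1, h2]
      simp
    · have h1 : (n + 2) % 5 = 3 := by omega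
      have h2 : (n + 2) / 5 = n / 5 := by omega
      simp only [l, len, h, h1, h2]
      simp
      ring
    · have h1 : (n + 2) % 5 = 4 := by omega
      have h2 : (n + 2) / 5 = n / 5 := by omega
      simp only [l, len, h, h1, h2]
      simp
      ring
    · have h1 : (n + 2) % 5 = 0 := by omega
      have h2 : (n + 2) / 5 = n / 5 + 1 := by omega
      simp only [l, len, h, h1, h2]
      simp [pow_succ]
      ring
    · have h1 : (n + 2) % 5 = 1 := by omega
      have h2 : (n + 2) / 5 = n / 5 + 1 := by omega
      simp only [l, len, h, h1, h2]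
      simp [pow_succ]
      ring
  have lt3 : ∀ n, l false (n + 3) = 7 * l true n := by
    intro n
    have h : n % 5 = 0 ∨ n % 5 = 1 ∨ n % 5 = 2 ∨ n % 5 = 3 ∨ n % 5 = 4 := by omega
    rcases h with h | h | h | h | h
    · have h1 : (n + 3) % 5 = 3 := by omega
      have h2 : (n + 3) / 5 = n / 5 := by omega
      simp only [l, len, h, h1, h2]
      simp
    · have h1 : (n + 3) % 5 = 4 := by omega
      have h2 : (n + 3) / 5 = n / 5 := by omega
      simp only [l, len, h, h1, h2]
      simp
      ring
    · have h1 : (n + 3) % 5 = 0 := by omega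
      have h2 : (n + 3) / 5 = n / 5 + 1 := by omega
      simp only [l, len, h, h1, h2]
      simp [pow_succ]
      ring
    · have h1 : (n + 3) % 5 = 1 := by omega
      have h2 : (n + 3) / 5 = n / 5 + 1 := by omega
      simp only [l, len, h, h1, h2]
      simp [pow_succ]
      ring
    · have h1 : (n + 3) % 5 = 2 := by omega
      have h2 : (n + 3) / 5 = n / 5 + 1 := by omega
      simp only [l, len, h, h1, h2]
      simp [pow_succ]
      ring
  refine ⟨l, fun b => by cases b <;> simp [l, len], fun n => ?_⟩
  induction n using Nat.strong_induction_on with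
  | _ n ih =>
    intro b
    cases b
    · rcases Nat.lt_or_ge n 3 with hn | hn
      · interval_cases n
        · have := base1 false
          simpa [l, len, th, tT, tF] using this
        · have := base2 false
          simpa [l, len, th, tT, tF] using this
        · have := base3
          simpa [l, len, th, tT, tF] using this
      · obtain ⟨m, rfl⟩ : ∃ m, n = m + 3 := ⟨n - 3, by omega⟩
        have h1 := transfer7 (fun j r hr => U_false j r hr) (ih m (by omega) true)
        rw [← lt3, ← lt3, ← th_false] at h1
        exact h1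
    · rcases Nat.lt_or_ge n 2 with hn | hn
      · interval_cases n
        · have := base1 true
          simpa [l, len, th, tT, tF] using this
        · have := base2 true
          simpa [l, len, th, tT, tF] using this
      · obtain ⟨m, rfl⟩ : ∃ m, n = m + 2 := ⟨n - 2, by omega⟩
        have h1 := transfer4 (fun j r hr => U_true j r hr) noTriple (ih m (by omega) false)
        rw [← lt2, ← lt2, ← th_true] at h1
        exact h1

/-- The directive word `01^ω`. -/
def D0 (n : ℕ) : Bool := decide (n ≠ 0)

/-- The sequence `R(ERERR)^ω`. -/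
def T0 : ℕ → Anti
  | 0 => Anti.R
  | n + 1 => tT (n % 5)

lemma T0_succ (n : ℕ) : T0 (n + 1) = th true n := rfl

lemma isGPS_U : IsGPS D0 T0 (U true) := by
  obtain ⟨l, hl0, hl⟩ := steps
  refine ⟨fun n => match n with
    | 0 => []
    | n + 1 => pref (U true) (l true n), rfl, fun n => ?_, fun n => ?_⟩
  · cases n with
    | zero =>
      show IsClosure Anti.R ([] ++ [D0 0]) (pref (U true) (l true 0))
      rw [hl0]
      have e : pref (U true) 1 = [false] := by decide
      rw [e]
      have e2 : D0 0 = false := by decide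
      rw [e2]
      refine ⟨by simp [IsPal, Anti.app], by simp, fun q _ hq => ?_⟩
      simpa using hq.length_le
    | succ n =>
      show IsClosure (T0 (n + 1)) (pref (U true) (l true n) ++ [D0 (n + 1)])
        (pref (U true) (l true (n + 1)))
      rw [T0_succ]
      have e2 : D0 (n + 1) = true := by simp [D0]
      rw [e2]
      exact closure_of_step (hl n true)
  · cases n with
    | zero => rfl
    | succ n =>
      show pref (U true) (l true n) = pref (U true) (pref (U true) (l true n)).length
      rw [pref_length]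

/-! ### Aperiodicity -/

lemma period4 {p m : ℕ} (h : ∀ n, m ≤ n → U true (n + p) = U true n) :
    ∃ p', p = 4 * p' ∧ ∀ n, m ≤ n → U false (n + p') = U false n := by
  have e0 : ∀ j, U true (4 * j) = U false j := fun j => by
    have := U_true j 0 (by omega); simpa [p1] using this
  have e1 : ∀ j, U true (4 * j + 1) = !(U false j) := fun j => by
    have := U_true j 1 (by omega); simpa [p1] using this
  have e2 : ∀ j, U true (4 * j + 2) = !(U false j) := fun j => by
    have := U_true j 2 (by omega); simpa [p1] using this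
  have e3 : ∀ j, U true (4 * j + 3) = U false j := fun j => by
    have := U_true j 3 (by omega); simpa [p1] using this
  obtain ⟨q, r, hr, rfl⟩ : ∃ q r, r < 4 ∧ p = 4 * q + r := ⟨p / 4, p % 4, by omega, by omega⟩
  interval_cases r
  · refine ⟨q, by omega, fun n hn => ?_⟩
    have := h (4 * n) (by omega)
    have e : 4 * n + (4 * q + 0) = 4 * (n + q) := by omega
    rw [e, e0, e0] at this
    exact this
  · exfalso
    have h1 := h (4 * m + 1) (by omega)
    have h2 := h (4 * m + 2) (by omega)
    have f1 : 4 * m + 1 + (4 * q + 1) = 4 * (m + q) + 2 := by omega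
    have f2 : 4 * m + 2 + (4 * q + 1) = 4 * (m + q) + 3 := by omega
    rw [f1, e2, e1] at h1
    rw [f2, e3, e2, ← h1] at h2
    simp at h2
  · exfalso
    have key : ∀ k, U false (m + k + q) = U false (m + k + q + 1) := by
      intro k
      have h1 := h (4 * (m + k) + 1) (by omega)
      have h2 := h (4 * (m + k) + 2) (by omega)
      have f1 : 4 * (m + k) + 1 + (4 * q + 2) = 4 * (m + k + q) + 3 := by omega
      have f2 : 4 * (m + k) + 2 + (4 * q + 2) = 4 * (m + k + q + 1) := by omega
      rw [f1, e3, e1] at h1
      rw [f2, e0, e2] at h2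
      rw [h1, h2]
    refine noTriple (m + q) ⟨?_, ?_⟩
    · have := key 0
      simpa using this
    · have := key 1
      have f1 : m + 1 + q = m + q + 1 := by omega
      have f2 : m + 1 + q + 1 = m + q + 2 := by omega
      rw [f1] at this
      exact this
  · exfalso
    have h1 := h (4 * m + 1) (by omega)
    have h2 := h (4 * m + 2) (by omega)
    have f1 : 4 * m + 1 + (4 * q + 3) = 4 * (m + q + 1) := by omega
    have f2 : 4 * m + 2 + (4 * q + 3) = 4 * (m + q + 1) + 1 := by omega
    rw [f1, e0, e1] at h1
    rw [f2, e1, e2, ← h1] at h2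
    simp at h2

lemma period7 {p m : ℕ} (h : ∀ n, m ≤ n → U false (n + p) = U false n) :
    ∃ p', p = 7 * p' ∧ ∀ n, m ≤ n → U true (n + p') = U true n := by
  have e0 : ∀ j, U false (7 * j) = U true j := fun j => by
    have := U_false j 0 (by omega); simpa [p2] using this
  have e1 : ∀ j, U false (7 * j + 1) = !(U true j) := fun j => by
    have := U_false j 1 (by omega); simpa [p2] using this
  have e2 : ∀ j, U false (7 * j + 2) = !(U true j) := fun j => by
    have := U_false j 2 (by omega); simpa [p2] using this
  have e3 : ∀ j, U false (7 * j + 3) = U true j := fun j => by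
    have := U_false j 3 (by omega); simpa [p2] using this
  have e4 : ∀ j, U false (7 * j + 4) = !(U true j) := fun j => by
    have := U_false j 4 (by omega); simpa [p2] using this
  have e5 : ∀ j, U false (7 * j + 5) = !(U true j) := fun j => by
    have := U_false j 5 (by omega); simpa [p2] using this
  have e6 : ∀ j, U false (7 * j + 6) = U true j := fun j => by
    have := U_false j 6 (by omega); simpa [p2] using this
  obtain ⟨q, r, hr, rfl⟩ : ∃ q r, r < 7 ∧ p = 7 * q + r := ⟨p / 7, p % 7, by omega, by omega⟩
  interval_cases r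
  · refine ⟨q, by omega, fun n hn => ?_⟩
    have := h (7 * n) (by omega)
    have e : 7 * n + (7 * q + 0) = 7 * (n + q) := by omega
    rw [e, e0, e0] at this
    exact this
  · exfalso
    have h1 := h (7 * m + 1) (by omega)
    have h2 := h (7 * m + 2) (by omega)
    have f1 : 7 * m + 1 + (7 * q + 1) = 7 * (m + q) + 2 := by omega
    have f2 : 7 * m + 2 + (7 * q + 1) = 7 * (m + q) + 3 := by omega
    rw [f1, e2, e1] at h1
    rw [f2, e3, e2, ← h1] at h2
    simp at h2
  · exfalso
    have h1 := h (7 * m + 1) (by omega)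
    have h2 := h (7 * m + 2) (by omega)
    have f1 : 7 * m + 1 + (7 * q + 2) = 7 * (m + q) + 3 := by omega
    have f2 : 7 * m + 2 + (7 * q + 2) = 7 * (m + q) + 4 := by omega
    rw [f1, e3, e1] at h1
    rw [f2, e4, e2, ← h1] at h2
    simp at h2
  · exfalso
    have h1 := h (7 * m + 4) (by omega)
    have h2 := h (7 * m + 5) (by omega)
    have f1 : 7 * m + 4 + (7 * q + 3) = 7 * (m + q + 1) := by omega
    have f2 : 7 * m + 5 + (7 * q + 3) = 7 * (m + q + 1) + 1 := by omega
    rw [f1, e0, e4] at h1
    rw [f2, e1, e5, ← h1] at h2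
    simp at h2
  · exfalso
    have h1 := h (7 * m + 1) (by omega)
    have h2 := h (7 * m + 2) (by omega)
    have f1 : 7 * m + 1 + (7 * q + 4) = 7 * (m + q) + 5 := by omega
    have f2 : 7 * m + 2 + (7 * q + 4) = 7 * (m + q) + 6 := by omega
    rw [f1, e5, e1] at h1
    rw [f2, e6, e2, ← h1] at h2
    simp at h2
  · exfalso
    have h1 := h (7 * m + 4) (by omega)
    have h2 := h (7 * m + 5) (by omega)
    have f1 : 7 * m + 4 + (7 * q + 5) = 7 * (m + q + 1) + 2 := by omega
    have f2 : 7 * m + 5 + (7 * q + 5) = 7 * (m + q + 1) + 3 := by omega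
    rw [f1, e2, e4] at h1
    rw [f2, e3, e5, ← h1] at h2
    simp at h2
  · exfalso
    have h1 := h (7 * m + 1) (by omega)
    have h2 := h (7 * m + 2) (by omega)
    have f1 : 7 * m + 1 + (7 * q + 6) = 7 * (m + q + 1) := by omega
    have f2 : 7 * m + 2 + (7 * q + 6) = 7 * (m + q + 1) + 1 := by omega
    rw [f1, e0, e1] at h1
    rw [f2, e1, e2, ← h1] at h2
    simp at h2

lemma aperiodic_U : Aperiodic (U true) := by
  rintro ⟨m, p, hp, h⟩
  have key : ∀ p, 0 < p → ¬ ∀ n, m ≤ n → U true (n + p) = U true n := by
    intro p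
    induction p using Nat.strong_induction_on with
    | _ p ih =>
      intro hp h
      obtain ⟨p', rfl, h'⟩ := period4 h
      obtain ⟨p'', rfl, h''⟩ := period7 h'
      exact ih p'' (by omega) (by omega) h''
  exact key p hp h

/-! ### The morphism `φ_1 ∘ φ_2` -/

/-- The morphism `φ_1 ∘ φ_2`. -/
def phi12 (a : Bool) : List Bool := act (phi 1) (phi 2 a)

lemma U_28 (j r : ℕ) (hr : r < 28) :
    U true (28 * j + r) = xor (xor (p1 (r % 4)) (p2 (r / 4))) (U true j) := by
  have e : 28 * j + r = 4 * (7 * j + r / 4) + r % 4 := by omega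
  rw [e, U_true _ _ (by omega), U_false _ _ (by omega), Bool.xor_assoc]

lemma block (j : ℕ) : (List.range' (28 * j) 28).map (U true) = phi12 (U true j) := by
  have h1 : (List.range' (28 * j) 28).map (U true)
      = (List.range 28).map (fun r => xor (xor (p1 (r % 4)) (p2 (r / 4))) (U true j)) := by
    rw [List.range'_eq_map_range, List.map_map]
    refine List.map_congr_left fun r hr => ?_
    exact U_28 j r (List.mem_range.1 hr)
  rw [h1]
  cases U true j <;> decide

lemma act_pref (n : ℕ) : act phi12 (pref (U true) n) = pref (U true) (28 * n) := by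
  induction n with
  | zero => rfl
  | succ n ih =>
    have h1 : pref (U true) (28 * (n + 1)) = pref (U true) (28 * n)
        ++ (List.range' (28 * n) 28).map (U true) := by
      unfold pref
      rw [← List.map_append, List.range_eq_range', List.range_eq_range']
      congr 1
      rw [show 28 * (n + 1) = 28 * n + 28 by ring]
      have := List.range'_append_1 (s := 0) (m := 28 * n) (n := 28)
      simpa using this.symm
    rw [pref_succ, h1, block, ← ih]
    simp [act]

lemma fixed_phi12 : FixedBy phi12 (U true) := by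
  constructor
  · intro n
    rw [act_pref, pref_length]
  · intro m
    refine ⟨m, ?_⟩
    rw [act_pref, pref_length]
    omega

lemma primitive_phi12 : Primitive phi12 := by
  refine ⟨1, le_rfl, ?_⟩
  decide

lemma not_fixed (k : ℕ) (hk : 1 ≤ k) : ¬ FixedBy (phi k) (U true) := by
  rintro ⟨h, -⟩
  rcases Nat.eq_or_lt_of_le hk with h1 | h1
  · subst h1
    have := h 6
    revert this
    decide
  · obtain ⟨k', rfl⟩ : ∃ k', k = k' + 2 := ⟨k - 2, by omega⟩
    have h2 := h 1
    have e : act (phi (k' + 2)) (pref (U true) 1) = phi (k' + 2) false := by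
      have : pref (U true) 1 = [false] := by decide
      rw [this]
      simp [act]
    rw [e] at h2
    have h3 : (phi (k' + 2) false)[5]? = some true := by
      simp [phi, List.replicate_succ]
    have h4 : 5 < (phi (k' + 2) false).length := by
      by_contra hcon
      rw [List.getElem?_eq_none (by omega)] at h3
      simp at h3
    rw [h2, List.getElem?_eq_getElem (by rw [pref_length]; exact h4), pref_getElem] at h3
    have h5 : U true 5 = false := by decide
    rw [h5] at h3
    simp at h3

lemma not_standard (D : ℕ → Bool) : ¬ IsGPS D (fun _ => Anti.R) (U true) := by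
  rintro ⟨w, h0, hc, hp⟩
  -- first step
  have hw1 : w 1 = [false] := by
    obtain ⟨-, h2, h3⟩ := hc 0
    rw [h0, List.nil_append] at h2 h3
    have h4 : (w 1).length ≤ 1 := by
      have := h3 [D 0] (by simp [IsPal, Anti.app]) List.prefix_rfl
      simpa using this
    have h5 : 1 ≤ (w 1).length := by
      have := h2.length_le
      simpa using this
    have h6 := hp 1
    have h7 : (w 1).length = 1 := by omega
    rw [h7] at h6
    rw [h6]
    decide
  obtain ⟨h1, h2, h3⟩ := hc 1
  rw [hw1] at h2 h3
  have h4 : (w 2).length ≤ 3 := by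
    have := h3 [false, D 1, false] (by simp [IsPal, Anti.app]) (by simp)
    simpa using this
  have h5 : 2 ≤ (w 2).length := by
    have := h2.length_le
    simpa using this
  have h6 := hp 2
  have h7 : (w 2).length = 2 ∨ (w 2).length = 3 := by omega
  have h8 : IsPal Anti.R (w 2) := h1
  rw [h6] at h8
  rcases h7 with h7 | h7
  · rw [h7] at h8
    revert h8
    unfold IsPal
    decide
  · rw [h7] at h8
    revert h8
    unfold IsPal
    decide

/-- **Q1 is false.**  The infinite word `u = u(01^ω, R(ERERR)^ω)` is an aperiodic binary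
generalized pseudostandard word, not standard Sturmian, and a fixed point of the primitive
morphism `φ_1 ∘ φ_2`, but it is not a fixed point of any `φ_k`, `k ≥ 1`. -/
theorem result : ∃ u : ℕ → Bool, IsGPS D0 T0 u ∧ Aperiodic u ∧ ¬ StandardSturmian u ∧
    Primitive (fun a => act (phi 1) (phi 2 a)) ∧ FixedBy (fun a => act (phi 1) (phi 2 a)) u ∧
    ∀ k : ℕ, 1 ≤ k → ¬ FixedBy (phi k) u :=
  ⟨U true, isGPS_U, aperiodic_U, fun h => h.2.elim not_standard, primitive_phi12, fixed_phi12,
    not_fixed⟩

end Pool.Agent.Results.MP_b60f05_co.ComposedMorphism
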